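import Pool.Agent.TH771.CS.Main

/-!
# How many strings of a random oracle must be changed to get a complete language for `UP`?

An adversary who knows the random oracle `O` changes, for all large `n`, at most `G n` of the
strings of length at most `n`; the result is the oracle `A`.

* If `G` does not tend to infinity (then only finitely many strings can be changed), there is no
  such object relative to `A`.
* If `G` tends to infinity, however slowly, the adversary can reach an oracle `A` relative to which
  there is a complete language for `UP`, although relative to `A` still `NP` is
  not contained in `coNP/poly`, `PSPACE` not in `PH/poly` and `EXP` not in `PSPACE/poly`.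
-/

set_option autoImplicit false

namespace Pool.Agent.Results.MP_d5150c_lc.ChangedStrings

open MeasureTheory Filter Pool.Agent.H628R3.RO
open Pool.Agent.W900.CH (Close)
open Pool.Agent.TH771.CS (Far)

/-- Relative to `A` some language in `UP` is complete for `UP` (under polynomial-time many-one
reductions relative to `A`). -/
def HasComplete (A : Oracle) : Prop :=
  ∃ K : Set (List Bool), IsUP A K ∧ ∀ L, IsUP A L → Red A L K

/-- For almost every oracle `O`: the adversary with budget `G` can reach an oracle with
`HasComplete` if and only if `G` tends to infinity, and then also an oracle which has `HasComplete` and is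
`Far`. -/
theorem result : ∀ᵐ O ∂randomOracle, ∀ G : ℕ → ℝ,
    (¬ Tendsto G atTop atTop → ∀ A : Oracle, Close G O A → ¬ HasComplete A) ∧
    (Tendsto G atTop atTop → ∃ A : Oracle, Close G O A ∧ HasComplete A ∧ Far A) :=
  Pool.Agent.TH771.CS.main_changed (X := HasComplete)
    (fun _ _ h => Pool.Agent.W900.SQ.has_up' h) Pool.Agent.H943R5.GC.ae_not_up Pool.Agent.W900.SP.inv_up

end Pool.Agent.Results.MP_d5150c_lc.ChangedStrings
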