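import Pool.Agent.TH654.TU.Up

set_option autoImplicit false

/-!
# Relative to a random oracle no language in `UP` is hard even for `UP ∩ coUP`

Polynomial time is Mathlib's `Turing.TM2ComputableInPolyTime`; the oracle classes are those of
`Pool.Agent.H628R3.RO.Defs`.

For almost every oracle `A`, no language in `UP` relative to `A` is hard, under many-one
reductions, even for `UP ∩ coUP` relative to `A`. So there is no complete language for `UP`, and
none for any class between `UP ∩ coUP` and `UP`.

The proof uses the blocks of `Pool.Agent.H673R3.UC` (helpers 583, 628 and 673 of earlier rounds):
an instance is a pair of halves of a block of the random oracle together with certificates that all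
other pairs of the block have at least two hits; the pair of the instance has exactly one hit and
the language asks whether it is in the left half. If a reduction to a set in `UP` were correct at
every block, then at a block where one pair has exactly two hits, both in the left half, the image
of the instance would have two different witnesses (if the witnesses for two single hits were equal,
then this witness would be accepted when the only hit is in the right half).
-/

namespace Pool.Agent.Results.MP_d5150c_lc.RandomOracle

open Pool.Agent.H628R3.RO

/-- For almost every oracle `A`: for every language `K` in `UP` relative to `A` there is a language
`L` such that `L` and its complement are in `UP` relative to `A`, and `L` is not polynomial-time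
many-one reducible to `K` relative to `A`. -/
theorem result : ∀ᵐ A ∂randomOracle, ∀ K : Set (List Bool), IsUP A K →
    ∃ L : Set (List Bool), IsUP A L ∧ IsUP A Lᶜ ∧ ¬ Red A L K :=
  Pool.Agent.TH654.TU.main_UP

end Pool.Agent.Results.MP_d5150c_lc.RandomOracle
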