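import Pool.Agent.TH672.SD.Thr

set_option autoImplicit false

/-!
# Every oracle: very few strings destroy all complete languages for `UP`

The construction is in the library `Pool.Agent.TH672.SD`; it uses the libraries of the starting
files on oracle algorithms (`Pool.Agent.H628R3.RO`) and on the join of oracles
(`Pool.Agent.W900.SP`).
-/

namespace Pool.Agent.Results.MP_d5150c_lc.SparseDestruction

open Filter Pool.Agent.H628R3.RO Pool.Agent.W900.SP Pool.Agent.TH672.SD
open Pool.Agent.NPC (pairBits)
open Pool.Agent.W900.SP (join)

/-- `T` has at most `g n` strings of length at most `n`, for all `n`. -/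
def Few (g : ℕ → ℕ) (T : Oracle) : Prop :=
  ∀ n, {q | T q = true ∧ q.length ≤ n}.Finite ∧ {q | T q = true ∧ q.length ≤ n}.ncard ≤ g n

/-- The input `x` together with a pad of length `2 ^ (|x| / k)`: with this input an algorithm that
is fast in the length of its input may run for a time polynomial in `2 ^ (|x| / k)`. -/
def padded (k : ℕ) (x : List Bool) : List Bool :=
  pairBits x (List.replicate (2 ^ (x.length / k)) true)

/-- Relative to `A` some language is complete for `UP`. -/
def HasComplete (A : Oracle) : Prop :=
  ∃ K : Set (List Bool), IsUP A K ∧ ∀ L, IsUP A L → Red A L K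

open Classical in
/-- Relative to `A` no language `K` in `UP` is hard for `UP ∩ coUP`, even for Turing reductions in
time `2 ^ o(n)`: there is a language `L` in `UP ∩ coUP` such that every algorithm `M` which may ask
`A` and `K`, and which runs in time polynomial in `2 ^ (n / k)`, `k` large, fails to decide `L`, on
inputs of arbitrarily large length. -/
def NoHard (A : Oracle) : Prop := ∀ K, IsUP A K → ∃ L, IsUP A L ∧ IsUP A Lᶜ ∧
  (∀ M : Alg, ∃ k₀, ∀ k ≥ k₀, ∀ N, ∃ x : List Bool, N ≤ x.length ∧
    ¬ (M.out (join A (fun z => decide (z ∈ K))) (padded k x) = some [true] ↔ x ∈ L)) ∧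
  ¬ Red A L K

/-- For every oracle `O` and every function `g`: if `g` tends to infinity, however slowly, then
there is a second oracle `T` with at most `g n` strings of length at most `n`, for all `n`, such
that relative to `join O T` there is no complete language for `UP`, in the strong sense of
`NoHard`; and if `g` does not tend to infinity then no second oracle `T` with at most `g n` strings
of length at most `n` changes the answer to the question whether `UP` has a complete language. -/
theorem result (O : Oracle) (g : ℕ → ℕ) :
    (Tendsto g atTop atTop → ∃ T : Oracle, Few g T ∧ NoHard (join O T) ∧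
      ¬ HasComplete (join O T)) ∧
    (¬ Tendsto g atTop atTop → ∀ T : Oracle, Few g T →
      (HasComplete (join O T) ↔ HasComplete O)) := by
  refine threshold (X := HasComplete) (Y := NoHard) ?_ ?_ ?_ O g
  · intro A A' h hA
    simpa only [HasComplete, IsUP, Red, h] using hA
  · rintro A hA ⟨K, hK, hred⟩
    obtain ⟨L, h1, _, _, h4⟩ := hA K hK
    exact h4 (hred L h1)
  · intro O g hg
    obtain ⟨T, h1, _, h2, _⟩ := main O g hg
    exact ⟨T, h1, h2⟩

end Pool.Agent.Results.MP_d5150c_lc.SparseDestruction
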