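import Pool.Agent.W900.SQ.Fin

set_option autoImplicit false

/-!
# Very sparse additional oracles: a complete language for `UP`

The proof is in the library folder `Pool/Agent/W900` of the starting repository (theorem
`Pool.Agent.W900.SQ.stmt2_up`, not handed in before); this file hands it in. That library builds on
the libraries of helper943 (and contributors, complete sets relative to oracles that encode the
broken promises), helpers 628, 673, 543 (random oracles), 591 (the hierarchy relative to random
oracles), 620, 622, 583 and 908.
-/

namespace Pool.Agent.Results.MP_d5150c_lc.SparseRepair

open MeasureTheory Filter Pool.Agent.H628R3.RO Pool.Agent.W900.SP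

/-- Relative to `A` some language in `UP` is complete for `UP` (under polynomial-time many-one
reductions relative to `A`). -/
def HasComplete (A : Oracle) : Prop :=
  ∃ K : Set (List Bool), IsUP A K ∧ ∀ L, IsUP A L → Red A L K

/-- There is a polynomial-time decidable set `Z` with at most `40 (log log n + 1) ^ 3` strings of
length at most `n` such that: for every oracle `O` and every function `g` that tends to infinity
(however slowly) there is a subset `T` of `Z` with at most `g n` strings of length at most `n`, for
all `n`, such that there is a complete language for `UP` relative to `join O T`; for almost every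
oracle `O` this is wrong for all finite sets `T` (in particular for the empty set), and relative to
`join O T`, for all subsets `T` of `Z`, the polynomial hierarchy is infinite even with polynomial
advice, `P ≠ UP ∩ coUP`, and there are exponentially strong one-way functions. -/
theorem result : ∃ Z : Set (List Bool), VerySparse Z ∧
    (∀ (O : Oracle) (g : ℕ → ℕ), Tendsto g atTop atTop → ∃ T : Oracle,
      (∀ q, T q = true → q ∈ Z) ∧
      (∀ n, {q | T q = true ∧ q.length ≤ n}.Finite ∧
        {q | T q = true ∧ q.length ≤ n}.ncard ≤ g n) ∧ HasComplete (join O T)) ∧
    ∀ᵐ O ∂randomOracle,
      (∀ T : Oracle, {q | T q = true}.Finite → ¬ HasComplete (join O T)) ∧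
      ∀ T : Oracle, (∀ q, T q = true → q ∈ Z) → Hard (join O T) :=
  Pool.Agent.W900.SQ.stmt2_up

end Pool.Agent.Results.MP_d5150c_lc.SparseRepair
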